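import Mathlib

set_option autoImplicit false

/-!
# Monoids satisfying `x ^ (p + 1) = x`

If `e` is idempotent and lies in the ideal generated by `u`, then `e u e` is invertible in the local
monoid of `e`: its `p`-th power is `e`.
-/

namespace Pool.Agent.E8helper6.BM

variable {S : Type*} [Monoid S]

/-- `z` lies in the two-sided ideal generated by `a` -/
def Le (z a : S) : Prop := ∃ x y, z = x * a * y

theorem Le.refl (a : S) : Le a a := ⟨1, 1, by simp⟩

theorem Le.trans {a b c : S} (h1 : Le a b) (h2 : Le b c) : Le a c := by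
  obtain ⟨x, y, rfl⟩ := h1
  obtain ⟨u, v, rfl⟩ := h2
  exact ⟨x * u, v * y, by simp only [mul_assoc]⟩

theorem le_one (a : S) : Le a 1 := ⟨a, 1, by simp⟩

variable {p : ℕ}

theorem self_le_sq (hp : 0 < p) (hS : ∀ x : S, x ^ (p + 1) = x) (a : S) : Le a (a * a) := by
  obtain ⟨q, rfl⟩ : ∃ q, p = q + 1 := ⟨p - 1, by omega⟩
  refine ⟨a ^ q, 1, ?_⟩
  have h := hS a
  rw [pow_succ, pow_succ] at h
  rw [mul_one, ← mul_assoc]
  exact h.symm

theorem cyc (hp : 0 < p) (hS : ∀ x : S, x ^ (p + 1) = x) (a b : S) : Le (a * b) (b * a) := by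
  refine (self_le_sq hp hS (a * b)).trans ⟨a, b, ?_⟩
  simp only [mul_assoc]

theorem Le.mul (hp : 0 < p) (hS : ∀ x : S, x ^ (p + 1) = x) {z a b : S} (h1 : Le z a)
    (h2 : Le z b) : Le z (a * b) := by
  obtain ⟨x, y, hxy⟩ := h1
  obtain ⟨u, v, huv⟩ := h2
  have h3 : Le (z * z) (a * (y * u * b)) := by
    refine ⟨x, v, ?_⟩
    nth_rw 1 [hxy]
    rw [huv]
    simp only [mul_assoc]
  have h4 : Le ((y * u * b) * a) (b * a) := ⟨y * u, 1, by simp only [mul_assoc, mul_one]⟩
  exact (((self_le_sq hp hS z).trans h3).trans (cyc hp hS _ _)).trans (h4.trans (cyc hp hS _ _))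

theorem pow_eq_of_right_inv (hp : 0 < p) (hS : ∀ x : S, x ^ (p + 1) = x) {e x m : S}
    (hxe : x * e = x) (hxm : x * m = e) : x ^ p = e := by
  obtain ⟨q, rfl⟩ : ∃ q, p = q + 1 := ⟨p - 1, by omega⟩
  have h := hS x
  have h1 : x ^ (q + 1 + 1) * m = x * m := by rw [h]
  rw [pow_succ, mul_assoc, hxm] at h1
  rw [← h1, pow_succ, mul_assoc, hxe]

/-- in a monoid satisfying `x ^ (p + 1) = x`, if the idempotent `e` lies in the ideal generated by
`u`, then `(e u e) ^ p = e` -/
theorem local_pow (hp : 0 < p) (hS : ∀ x : S, x ^ (p + 1) = x) {e u : S} (he : e * e = e)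
    (h : Le e u) : (e * u * e) ^ p = e := by
  obtain ⟨x, y, hxy⟩ : Le e (e * u * e) := ((Le.refl e).mul hp hS h).mul hp hS (Le.refl e)
  -- `X M Y = e`
  have h1 : (e * x * e) * ((e * u * e) * (e * y * e)) = e := by
    calc (e * x * e) * ((e * u * e) * (e * y * e))
        = e * x * (e * e) * u * (e * e) * y * e := by simp only [mul_assoc]
      _ = e * (x * (e * u * e) * y) * e := by rw [he]; simp only [mul_assoc]
      _ = e := by rw [← hxy, he, he]
  have hXe : (e * x * e) * e = e * x * e := by rw [mul_assoc, he]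
  have h2 : (e * x * e) ^ p = e := pow_eq_of_right_inv hp hS hXe h1
  obtain ⟨q, rfl⟩ : ∃ q, p = q + 1 := ⟨p - 1, by omega⟩
  -- the right inverse is a power
  have h3 : (e * u * e) * (e * y * e) = (e * x * e) ^ q * e := by
    have h4 : e * ((e * u * e) * (e * y * e)) = (e * u * e) * (e * y * e) := by
      simp only [← mul_assoc, he]
    rw [← h4]
    nth_rw 1 [← h2]
    rw [pow_succ, mul_assoc, h1]
  have h5 : (e * u * e) * ((e * y * e) * (e * x * e)) = e := by
    rw [← mul_assoc, h3, mul_assoc]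
    have h6 : e * (e * x * e) = e * x * e := by simp only [← mul_assoc, he]
    rw [h6, ← pow_succ, h2]
  refine pow_eq_of_right_inv hp hS ?_ h5
  rw [mul_assoc, he]

end Pool.Agent.E8helper6.BM
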