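import Pool.Agent.E8helper6.BM.Core
import Pool.Agent.TH54.BU.BurnDef

set_option autoImplicit false

/-!
# A class of `x ^ 1 = x ^ (1 + p)` which is not regular, from an infinite group of exponent `p`
-/

namespace Pool.Agent.E8helper6.BM

open Pool.Agent.TH54.BU

/-- the defining relation of the free Burnside monoid -/
abbrev rel (A : Type) (n m : ℕ) : FreeMonoid A → FreeMonoid A → Prop :=
  fun a b => ∃ x : FreeMonoid A, a = x ^ n ∧ b = x ^ (n + m)

theorem quot_law (A : Type) (p : ℕ) (s : (conGen (rel A 1 p)).Quotient) : s ^ (p + 1) = s := by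
  induction s using Con.induction_on with
  | H x =>
    have h : (conGen (rel A 1 p)) x (x ^ (p + 1)) := by
      refine ConGen.Rel.of _ _ ⟨x, (pow_one x).symm, ?_⟩
      rw [add_comm]
    exact ((Con.eq _).2 h).symm

/-- the word `0 1` over the alphabet `Fin 2` -/
def w01 : FreeMonoid (Fin 2) := FreeMonoid.of 0 * FreeMonoid.of 1

theorem le_word {A : Type} {p : ℕ} (hp : 0 < p) {e : (conGen (rel A 1 p)).Quotient}
    (h : ∀ i : A, Le e ((FreeMonoid.of i : FreeMonoid A) : (conGen (rel A 1 p)).Quotient))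
    (u : FreeMonoid A) : Le e (u : (conGen (rel A 1 p)).Quotient) := by
  induction u using FreeMonoid.inductionOn' with
  | one => exact le_one e
  | of_mul i u ih =>
    rw [Con.coe_mul]
    exact (h i).mul hp (quot_law A p) ih

variable {p : ℕ}

/-- the hom to the free Burnside group -/
def toB (p : ℕ) : FreeMonoid (Fin 2) →* FreeGroup (Fin 2) ⧸ powSub (FreeGroup (Fin 2)) p :=
  FreeMonoid.lift fun i => (QuotientGroup.mk (FreeGroup.of i) : _ ⧸ _)

theorem group_law (g : FreeGroup (Fin 2) ⧸ powSub (FreeGroup (Fin 2)) p) : g ^ p = 1 := by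
  obtain ⟨x, rfl⟩ := QuotientGroup.mk_surjective g
  rw [← QuotientGroup.mk_pow]
  rw [QuotientGroup.eq_one_iff]
  exact Subgroup.subset_normalClosure ⟨x, rfl⟩

theorem toB_surj (hp : 0 < p) : Function.Surjective (toB p) := by
  intro g
  obtain ⟨x, rfl⟩ := QuotientGroup.mk_surjective g
  induction x using FreeGroup.induction_on with
  | C1 => exact ⟨1, map_one _⟩
  | of i => exact ⟨FreeMonoid.of i, by simp [toB]⟩
  | inv_of i _ =>
    refine ⟨FreeMonoid.of i ^ (p - 1), ?_⟩
    rw [map_pow]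
    have h1 : toB p (FreeMonoid.of i) = (QuotientGroup.mk (FreeGroup.of i) : _ ⧸ _) := by
      simp [toB]
    rw [h1, QuotientGroup.mk_inv, eq_inv_iff_mul_eq_one, ← pow_succ, Nat.sub_add_cancel hp]
    exact group_law _
  | mul x y hx hy =>
    obtain ⟨a, ha⟩ := hx
    obtain ⟨b, hb⟩ := hy
    exact ⟨a * b, by rw [map_mul, ha, hb]; rfl⟩

theorem toB_con {u v : FreeMonoid (Fin 2)} (h : conGen (rel (Fin 2) 1 p) u v) :
    toB p u = toB p v := by
  have h1 : conGen (rel (Fin 2) 1 p) ≤ Con.ker (toB p) := by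
    rw [Con.conGen_le]
    rintro a b ⟨x, ha, hb⟩
    rw [Con.ker_rel, ha, hb, map_pow, map_pow, pow_add, group_law, mul_one]
  exact h1 h

/-- If all classes are regular, the free Burnside group is finite -/
theorem finite_of_regular (hp : 0 < p)
    (h : ∃ (σ : Type) (_ : Fintype σ) (M : DFA (Fin 2) σ),
          M.accepts = {v : List (Fin 2) | conGen (rel (Fin 2) 1 p) (FreeMonoid.ofList v) w01}) :
    Finite (FreeGroup (Fin 2) ⧸ powSub (FreeGroup (Fin 2)) p) := by
  obtain ⟨σ, _, M, hM⟩ := h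
  classical
  -- the idempotent
  let Q := (conGen (rel (Fin 2) 1 p)).Quotient
  let w : Q := (w01 : Q)
  have hw : w ^ (p + 1) = w := quot_law _ p w
  have he : w ^ p * w ^ p = w ^ p := by
    obtain ⟨q, rfl⟩ : ∃ q, p = q + 1 := ⟨p - 1, by omega⟩
    calc w ^ (q + 1) * w ^ (q + 1) = w ^ (q + 1 + 1) * w ^ q := by
          rw [← pow_add, ← pow_add]; congr 1; omega
      _ = w * w ^ q := by rw [hw]
      _ = w ^ (q + 1) := (pow_succ' w q).symm
  have hle : ∀ i : Fin 2, Le (w ^ p) ((FreeMonoid.of i : FreeMonoid (Fin 2)) : Q) := by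
    obtain ⟨q, rfl⟩ : ∃ q, p = q + 1 := ⟨p - 1, by omega⟩
    have hw2 : w = ((FreeMonoid.of 0 : FreeMonoid (Fin 2)) : Q) *
        ((FreeMonoid.of 1 : FreeMonoid (Fin 2)) : Q) := rfl
    have h1 : Le (w ^ (q + 1)) w := ⟨w ^ q, 1, by rw [mul_one, pow_succ]⟩
    intro i
    refine h1.trans ?_
    fin_cases i
    · exact ⟨1, _, by rw [one_mul]; exact hw2⟩
    · exact ⟨_, 1, by rw [mul_one]; exact hw2⟩
  have hloc : ∀ u : FreeMonoid (Fin 2), (w ^ p * (u : Q) * w ^ p) ^ p = w ^ p := fun u =>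
    local_pow hp (quot_law _ p) he (le_word hp hle u)
  choose s hs using toB_surj (p := p) hp
  let τ : (FreeGroup (Fin 2) ⧸ powSub (FreeGroup (Fin 2)) p) → σ → σ :=
    fun g q => M.evalFrom q (FreeMonoid.toList (s g))
  refine Finite.of_injective τ ?_
  intro g g' hgg
  let pre : FreeMonoid (Fin 2) := w01 * w01 ^ p
  let post : FreeMonoid (Fin 2) := w01 ^ p * (w01 ^ p * s g * w01 ^ p) ^ (p - 1)
  have hW1 : conGen (rel (Fin 2) 1 p) (pre * s g * post) w01 := by
    rw [← Con.eq]
    have h1 : pre * s g * post = w01 * (w01 ^ p * s g * w01 ^ p) ^ p := by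
      obtain ⟨q, rfl⟩ : ∃ q, p = q + 1 := ⟨p - 1, by omega⟩
      simp only [pre, post, Nat.add_sub_cancel]
      rw [pow_succ' (w01 ^ (q + 1) * s g * w01 ^ (q + 1)) q]
      simp only [mul_assoc]
    rw [h1]
    have h2 := hloc (s g)
    calc ((w01 * (w01 ^ p * s g * w01 ^ p) ^ p : FreeMonoid (Fin 2)) : Q)
        = w * (w ^ p * (s g : Q) * w ^ p) ^ p := by
          rfl
      _ = w * w ^ p := by rw [h2]
      _ = w := by rw [← pow_succ', hw]
  have hW2 : conGen (rel (Fin 2) 1 p) (pre * s g' * post) w01 := by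
    have h1 : FreeMonoid.toList (pre * s g * post) ∈ M.accepts := by rw [hM]; exact hW1
    have h2 : FreeMonoid.toList (pre * s g' * post) ∈ M.accepts := by
      rw [DFA.mem_accepts] at h1 ⊢
      rw [DFA.eval, FreeMonoid.toList_mul, FreeMonoid.toList_mul, DFA.evalFrom_of_append,
        DFA.evalFrom_of_append] at h1 ⊢
      have h3 : M.evalFrom (M.evalFrom M.start (FreeMonoid.toList pre)) (FreeMonoid.toList (s g)) =
          M.evalFrom (M.evalFrom M.start (FreeMonoid.toList pre)) (FreeMonoid.toList (s g')) :=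
        congrFun hgg _
      rw [← h3]
      exact h1
    rw [hM] at h2
    exact h2
  have h5 := toB_con hW2
  have h6 := toB_con hW1
  rw [← h6] at h5
  simp only [map_mul, hs] at h5
  have h7 := mul_right_cancel h5
  exact (mul_left_cancel h7).symm

end Pool.Agent.E8helper6.BM
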